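import Pool.Agent.H76.GU.Targets

/-!
Row UNK of the board gu: unfolding of the matrices with a left kernel of the rank `k`.
-/

namespace Pool.Agent.H76.GU

open MeasureTheory Pool.Agent.H34.GM Pool.Agent.H34.GZ Pool.Agent.H34.GU

variable {m : ℕ}

theorem mt_lm (w : Mat m) (z : V m) : mt (lm w z) = w * mt z := by
  ext i j
  rfl

theorem cR_mul' (α β : ZM m) : cR (α * β) = cR α * cR β := by
  unfold cR
  exact Matrix.map_mul (f := Int.castRingHom ℝ)

theorem lm_lm (α β : ZM m) (z : V m) : lm (cR (α * β)) z = lm (cR α) (lm (cR β) z) := by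
  funext i j
  change (cR (α * β) * mt z) i j = (cR α * mt (lm (cR β) z)) i j
  rw [mt_lm, cR_mul', Matrix.mul_assoc]

theorem det_cR (γ : ZM m) (h : IsUnit γ) : (cR γ).det ≠ 0 := by
  have h1 : IsUnit γ.det := (Matrix.isUnit_iff_isUnit_det γ).1 h
  have h2 : (cR γ).det = ((γ.det : ℤ) : ℝ) := by
    unfold cR
    exact ((Int.castRingHom ℝ).map_det γ).symm
  rw [h2]
  have h3 : γ.det ≠ 0 := h1.ne_zero
  exact_mod_cast h3

theorem det_lm (γ : ZM m) (h : IsUnit γ) (z : V m) (hz : (mt z).det ≠ 0) :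
    (mt (lm (cR γ) z)).det ≠ 0 := by
  rw [mt_lm, Matrix.det_mul]
  exact mul_ne_zero (det_cR γ h) hz

theorem det_of_aN (hm1 : 1 ≤ m) (z : V m) (h : 1 ≤ aN (mt z)) : (mt z).det ≠ 0 := by
  intro h0
  unfold aN at h
  rw [h0, abs_zero, Real.zero_rpow] at h
  · linarith
  · have : (m : ℝ) ≠ 0 := by
      have : m ≠ 0 := by omega
      exact_mod_cast this
    exact one_div_ne_zero this

/-- right translation of the units -/
def rtr (u : (ZM m)ˣ) : {γ : ZM m // IsUnit γ} ≃ {γ : ZM m // IsUnit γ} where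
  toFun γ := ⟨γ.1 * u, γ.2.mul u.isUnit⟩
  invFun γ := ⟨γ.1 * (u⁻¹ : (ZM m)ˣ), γ.2.mul (u⁻¹).isUnit⟩
  left_inv γ := by
    apply Subtype.ext
    simp [mul_assoc]
  right_inv γ := by
    apply Subtype.ext
    simp [mul_assoc]

/-- left translation of the matrices -/
def ltr (u : (ZM m)ˣ) : ZM m ≃ ZM m where
  toFun α := u * α
  invFun α := (u⁻¹ : (ZM m)ˣ) * α
  left_inv α := by simp [← mul_assoc]
  right_inv α := by simp [← mul_assoc]

open Classical in
/-- the weights of the units which bring `α` to the normal form have the sum one -/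
theorem wsum (hORB : T_ORB) (k : ℕ) (hk : k < m) (h : V m → ENNReal)
    (hw : ∀ z : V m, (mt z).det ≠ 0 → ∑' p : {p : ZM m // InP k p}, h (lm (cR p.1) z) = 1)
    (α : ZM m) (z : V m) (hz : (mt z).det ≠ 0) :
    ∑' γ : {γ : ZM m // IsUnit γ}, (if Ker k (γ.1 * α) then h (lm (cR γ.1) z) else 0) =
      if ∃ γ : ZM m, IsUnit γ ∧ Ker k (γ * α) then 1 else 0 := by
  by_cases hex : ∃ γ : ZM m, IsUnit γ ∧ Ker k (γ * α)
  · rw [if_pos hex]
    obtain ⟨γ0, hu, hK⟩ := hex
    obtain ⟨u, rfl⟩ := hu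
    rw [← (rtr u).tsum_eq]
    have hiff : ∀ γ : ZM m, IsUnit γ → (Ker k (γ * (u : ZM m) * α) ↔ InP k γ) := by
      intro γ hγ
      rw [mul_assoc]
      exact (hORB m).2.2.2 k ((u : ZM m) * α) hk.le hK γ hγ
    have h1 : ∀ γ : {γ : ZM m // IsUnit γ},
        (if Ker k (((rtr u) γ).1 * α) then h (lm (cR ((rtr u) γ).1) z) else 0) =
        (fun γ : ZM m => if InP k γ then h (lm (cR γ) (lm (cR (u : ZM m)) z)) else 0) γ.1 := by
      intro γ
      change (if Ker k (γ.1 * (u : ZM m) * α) then h (lm (cR (γ.1 * (u : ZM m))) z) else 0) = _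
      rw [lm_lm]
      simp only [hiff γ.1 γ.2]
    rw [tsum_congr h1]
    have h2 := tsum_subtype {γ : ZM m | IsUnit γ}
      (fun γ : ZM m => if InP k γ then h (lm (cR γ) (lm (cR (u : ZM m)) z)) else 0)
    have h3 := tsum_subtype {γ : ZM m | InP k γ} (fun γ : ZM m => h (lm (cR γ) (lm (cR (u : ZM m)) z)))
    have h4 : ({γ : ZM m | IsUnit γ}.indicator
        (fun γ : ZM m => if InP k γ then h (lm (cR γ) (lm (cR (u : ZM m)) z)) else 0)) =
        {γ : ZM m | InP k γ}.indicator (fun γ : ZM m => h (lm (cR γ) (lm (cR (u : ZM m)) z))) := by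
      funext γ
      by_cases hP : InP k γ
      · rw [Set.indicator_of_mem (show γ ∈ {γ : ZM m | IsUnit γ} from hP.1),
          Set.indicator_of_mem (show γ ∈ {γ : ZM m | InP k γ} from hP), if_pos hP]
      · rw [Set.indicator_of_notMem (show γ ∉ {γ : ZM m | InP k γ} from hP)]
        by_cases hU : IsUnit γ
        · rw [Set.indicator_of_mem (show γ ∈ {γ : ZM m | IsUnit γ} from hU), if_neg hP]
        · rw [Set.indicator_of_notMem (show γ ∉ {γ : ZM m | IsUnit γ} from hU)]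
    refine Eq.trans h2 ?_
    rw [h4]
    refine Eq.trans h3.symm ?_
    exact hw _ (det_lm _ u.isUnit z hz)
  · rw [if_neg hex]
    rw [ENNReal.tsum_eq_zero]
    intro γ
    rw [if_neg]
    intro hK
    exact hex ⟨γ.1, γ.2, hK⟩

open Classical in
/-- exchange of the two sums -/
theorem exch (hORB : T_ORB) (k : ℕ) (hk : k < m) (h : V m → ENNReal)
    (hw : ∀ z : V m, (mt z).det ≠ 0 → ∑' p : {p : ZM m // InP k p}, h (lm (cR p.1) z) = 1)
    (g : ZM m → V m → ENNReal)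
    (hg : ∀ γ : ZM m, IsUnit γ → ∀ (α : ZM m) (z : V m), (mt z).det ≠ 0 →
      g (γ * α) (lm (cR γ) z) = g α z) (z : V m) (hz : (mt z).det ≠ 0) :
    ∑' γ : {γ : ZM m // IsUnit γ}, ∑' β : {β : ZM m // Ker k β},
      h (lm (cR γ.1) z) * g β.1 (lm (cR γ.1) z) =
    ∑' α : ZM m, if ∃ γ : ZM m, IsUnit γ ∧ Ker k (γ * α) then g α z else 0 := by
  have h1 : ∀ γ : {γ : ZM m // IsUnit γ}, ∑' β : {β : ZM m // Ker k β},
      h (lm (cR γ.1) z) * g β.1 (lm (cR γ.1) z) =
      ∑' α : ZM m, (if Ker k (γ.1 * α) then h (lm (cR γ.1) z) else 0) * g α z := by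
    intro γ
    obtain ⟨_, u, rfl⟩ := γ
    change ∑' β : {β : ZM m // Ker k β}, h (lm (cR (u : ZM m)) z) * g β.1 (lm (cR (u : ZM m)) z) =
      ∑' α : ZM m, (if Ker k ((u : ZM m) * α) then h (lm (cR (u : ZM m)) z) else 0) * g α z
    have h2 := tsum_subtype {β : ZM m | Ker k β}
      (fun β : ZM m => h (lm (cR (u : ZM m)) z) * g β (lm (cR (u : ZM m)) z))
    refine Eq.trans h2 ?_
    rw [← (ltr u).tsum_eq]
    refine tsum_congr fun α => ?_
    change ({β : ZM m | Ker k β}.indicator _ ((u : ZM m) * α)) = _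
    by_cases hK : Ker k ((u : ZM m) * α)
    · rw [Set.indicator_of_mem (show (u : ZM m) * α ∈ {β : ZM m | Ker k β} from hK), if_pos hK,
        hg _ u.isUnit α z hz]
    · rw [Set.indicator_of_notMem (show (u : ZM m) * α ∉ {β : ZM m | Ker k β} from hK), if_neg hK,
        zero_mul]
  rw [tsum_congr h1, ENNReal.tsum_comm]
  refine tsum_congr fun α => ?_
  rw [ENNReal.tsum_mul_right, wsum hORB k hk h hw α z hz]
  split_ifs
  · rw [one_mul]
  · rw [zero_mul]

/-- exchange of the two sums, abstract form -/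
theorem exchA {ι κ : Type} (c : ι → κ → ENNReal) (hc : ∀ i j, c i j ≠ ⊤) (s : κ → ENNReal)
    (hs : ∀ j, ∑' i, c i j = s j) (hs1 : ∀ j, s j ≤ 1) (g : κ → ℂ)
    (hg : ∑' j, ‖g j‖ₑ ≠ ⊤) :
    ∑' i, ∑' j, (((c i j).toReal : ℝ) : ℂ) * g j = ∑' j, (((s j).toReal : ℝ) : ℂ) * g j := by
  have hnorm : ∀ (i : ι) (j : κ), ‖(((c i j).toReal : ℝ) : ℂ) * g j‖ₑ = c i j * ‖g j‖ₑ := by
    intro i j
    rw [enorm_mul]
    congr 1
    rw [← ofReal_norm_eq_enorm, Complex.norm_real, Real.norm_of_nonneg ENNReal.toReal_nonneg,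
      ENNReal.ofReal_toReal (hc i j)]
  have hsum : Summable (Function.uncurry fun (i : ι) (j : κ) =>
      (((c i j).toReal : ℝ) : ℂ) * g j) := by
    apply Summable.of_nnnorm
    rw [← ENNReal.tsum_coe_ne_top_iff_summable]
    rw [ENNReal.tsum_prod', ENNReal.tsum_comm]
    have h3 : ∀ j : κ, ∑' i : ι, ((‖Function.uncurry (fun (i : ι) (j : κ) =>
          (((c i j).toReal : ℝ) : ℂ) * g j) (i, j)‖₊ : NNReal) : ENNReal) ≤ ‖g j‖ₑ := by
      intro j
      have h4 : ∀ i : ι, ((‖Function.uncurry (fun (i : ι) (j : κ) =>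
          (((c i j).toReal : ℝ) : ℂ) * g j) (i, j)‖₊ : NNReal) : ENNReal) =
          c i j * ‖g j‖ₑ := fun i => hnorm i j
      rw [tsum_congr h4, ENNReal.tsum_mul_right, hs j]
      calc s j * ‖g j‖ₑ ≤ 1 * ‖g j‖ₑ := mul_le_mul' (hs1 j) (le_refl _)
        _ = ‖g j‖ₑ := one_mul _
    exact ne_top_of_le_ne_top hg (ENNReal.tsum_le_tsum h3)
  rw [← hsum.tsum_comm]
  refine tsum_congr fun j => ?_
  rw [tsum_mul_right, ← Complex.ofReal_tsum, ← ENNReal.tsum_toReal_eq (fun i => hc i j), hs j]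

open Classical in
/-- the inner sum in terms of the matrices -/
theorem inner_sum (k : ℕ) (h : V m → ENNReal) (g : ZM m → V m → ℂ)
    (hg : ∀ γ : ZM m, IsUnit γ → ∀ (α : ZM m) (z : V m), (mt z).det ≠ 0 →
      g (γ * α) (lm (cR γ) z) = g α z) (z : V m) (hz : (mt z).det ≠ 0) (u : (ZM m)ˣ) :
    ∑' β : {β : ZM m // Ker k β}, (((h (lm (cR (u : ZM m)) z)).toReal : ℝ) : ℂ) *
      g β.1 (lm (cR (u : ZM m)) z) =
      ∑' α : ZM m, (((if Ker k ((u : ZM m) * α) then h (lm (cR (u : ZM m)) z) else 0).toReal :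
        ℝ) : ℂ) * g α z := by
  have h2 := tsum_subtype {β : ZM m | Ker k β}
    (fun β : ZM m => (((h (lm (cR (u : ZM m)) z)).toReal : ℝ) : ℂ) * g β (lm (cR (u : ZM m)) z))
  refine Eq.trans h2 ?_
  rw [← (ltr u).tsum_eq]
  refine tsum_congr fun α => ?_
  change ({β : ZM m | Ker k β}.indicator _ ((u : ZM m) * α)) = _
  by_cases hK : Ker k ((u : ZM m) * α)
  · rw [Set.indicator_of_mem (show (u : ZM m) * α ∈ {β : ZM m | Ker k β} from hK), if_pos hK,
      hg _ u.isUnit α z hz]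
  · rw [Set.indicator_of_notMem (show (u : ZM m) * α ∉ {β : ZM m | Ker k β} from hK), if_neg hK,
      ENNReal.toReal_zero, Complex.ofReal_zero, zero_mul]

open Classical in
/-- exchange of the two sums, complex values -/
theorem exchC (hORB : T_ORB) (k : ℕ) (hk : k < m) (h : V m → ENNReal) (hh : ∀ z, h z ≤ 1)
    (hw : ∀ z : V m, (mt z).det ≠ 0 → ∑' p : {p : ZM m // InP k p}, h (lm (cR p.1) z) = 1)
    (g : ZM m → V m → ℂ)
    (hg : ∀ γ : ZM m, IsUnit γ → ∀ (α : ZM m) (z : V m), (mt z).det ≠ 0 →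
      g (γ * α) (lm (cR γ) z) = g α z) (z : V m) (hz : (mt z).det ≠ 0)
    (hs : ∑' α : ZM m, ‖g α z‖ₑ ≠ ⊤) :
    ∑' γ : {γ : ZM m // IsUnit γ}, ∑' β : {β : ZM m // Ker k β},
      (((h (lm (cR γ.1) z)).toReal : ℝ) : ℂ) * g β.1 (lm (cR γ.1) z) =
    ∑' α : ZM m, if ∃ γ : ZM m, IsUnit γ ∧ Ker k (γ * α) then g α z else 0 := by
  have h1 : ∀ γ : {γ : ZM m // IsUnit γ}, ∑' β : {β : ZM m // Ker k β},
      (((h (lm (cR γ.1) z)).toReal : ℝ) : ℂ) * g β.1 (lm (cR γ.1) z) =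
      ∑' α : ZM m, (((if Ker k (γ.1 * α) then h (lm (cR γ.1) z) else 0).toReal : ℝ) : ℂ) *
        g α z := by
    intro γ
    obtain ⟨_, u, rfl⟩ := γ
    exact inner_sum k h g hg z hz u
  rw [tsum_congr h1]
  refine Eq.trans (exchA (fun (γ : {γ : ZM m // IsUnit γ}) (α : ZM m) =>
    if Ker k (γ.1 * α) then h (lm (cR γ.1) z) else 0) ?_
    (fun α => if ∃ γ : ZM m, IsUnit γ ∧ Ker k (γ * α) then 1 else 0)
    (fun α => wsum hORB k hk h hw α z hz) ?_ (fun α => g α z) hs) ?_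
  · intro γ α
    split_ifs
    · exact ne_top_of_le_ne_top ENNReal.one_ne_top (hh _)
    · exact ENNReal.zero_ne_top
  · intro α
    split_ifs
    · exact le_refl _
    · exact zero_le
  · refine tsum_congr fun α => ?_
    split_ifs
    · rw [ENNReal.toReal_one, Complex.ofReal_one, one_mul]
    · rw [ENNReal.toReal_zero, Complex.ofReal_zero, zero_mul]

theorem pf_UNK : T_UNZ → T_ORB → T_UNK := by
  intro hUNZ hORB m D hm1 hD k hk0 hkm κ ν hκm hνm hκ hν hw f hf hequ hfin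
  classical
  haveI : Countable (ZM m) := inferInstanceAs (Countable (Fin m → Fin m → ℤ))
  haveI : Countable {β : ZM m // Ker k β} := Subtype.countable
  set w : V m → ENNReal := fun z => κ z * ν z with hwdef
  have hwm : Measurable w := hκm.mul hνm
  have hw1 : ∀ z, w z ≤ 1 := fun z => by
    calc κ z * ν z ≤ 1 * 1 := mul_le_mul' (hκ z) (hν z)
      _ = 1 := one_mul 1
  have hww : ∀ z : V m, (mt z).det ≠ 0 →
      ∑' p : {p : ZM m // InP k p}, w (lm (cR p.1) z) = 1 := hw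
  have hcast : ∀ z (c : ℂ), ((κ z).toReal : ℂ) * (((ν z).toReal : ℂ) * c) =
      (((w z).toReal : ℝ) : ℂ) * c := by
    intro z c
    rw [hwdef]
    simp only [ENNReal.toReal_mul]
    push_cast
    ring
  simp only [hcast]
  have hdet : ∀ z ∈ D, (mt z).det ≠ 0 := fun z hz => det_of_aN hm1 z (hD.shell z hz).1
  have henorm : ∀ (α : ZM m) (z : V m), ‖(((w z).toReal : ℝ) : ℂ) * f α z‖ₑ = w z * ‖f α z‖ₑ := by
    intro α z
    rw [enorm_mul]
    congr 1
    rw [← ofReal_norm_eq_enorm, Complex.norm_real, Real.norm_of_nonneg ENNReal.toReal_nonneg,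
      ENNReal.ofReal_toReal (ne_top_of_le_ne_top ENNReal.one_ne_top (hw1 z))]
  have hmeas : ∀ α : ZM m, Measurable (fun z => (((w z).toReal : ℝ) : ℂ) * f α z) := by
    intro α
    exact (Complex.measurable_ofReal.comp hwm.ennreal_toReal).mul (hf α)
  have hfin' : ∫⁻ z in D, ∑' α : ZM m, ‖f α z‖ₑ ∂(hm m) ≠ ⊤ := by
    simp only [ofReal_norm_eq_enorm] at hfin
    exact hfin.ne
  -- the total mass
  have hH : Measurable (fun z => ∑' β : {β : ZM m // Ker k β}, w z * ‖f β.1 z‖ₑ) :=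
    Measurable.ennreal_tsum fun β => hwm.mul (hf β.1).enorm
  have htot : ∫⁻ z in Shell m, ∑' β : {β : ZM m // Ker k β}, w z * ‖f β.1 z‖ₑ ∂(hm m) ≠ ⊤ := by
    have h1 := ((hUNZ m hm1 D hD).1 _ hH)
    rw [h1]
    have h2 : ∫⁻ z in D, ∑' γ : {γ : ZM m // IsUnit γ},
        (fun z => ∑' β : {β : ZM m // Ker k β}, w z * ‖f β.1 z‖ₑ)
          (fun i j => (cR γ.1 * mt z) i j) ∂(hm m) =
        ∫⁻ z in D, ∑' α : ZM m, (if ∃ γ : ZM m, IsUnit γ ∧ Ker k (γ * α) then
          ‖f α z‖ₑ else 0) ∂(hm m) := by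
      refine setLIntegral_congr_fun hD.meas fun z hz => ?_
      have h3 := exch hORB k hkm w hww (fun α z => ‖f α z‖ₑ) (fun γ hγ α z hz => by
        simp only [hequ γ hγ α z hz]) z (hdet z hz)
      exact h3
    rw [h2]
    refine ne_top_of_le_ne_top hfin' (lintegral_mono fun z => ENNReal.tsum_le_tsum fun α => ?_)
    split_ifs
    · exact le_refl _
    · exact zero_le
  have hsumint : ∑' β : {β : ZM m // Ker k β}, ∫⁻ z in Shell m,
      ‖(((w z).toReal : ℝ) : ℂ) * f β.1 z‖ₑ ∂(hm m) ≠ ⊤ := by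
    have h1 := lintegral_tsum (μ := (hm m).restrict (Shell m))
      (f := fun (β : {β : ZM m // Ker k β}) (z : V m) => ‖(((w z).toReal : ℝ) : ℂ) * f β.1 z‖ₑ)
      (fun β => (hmeas β.1).enorm.aemeasurable)
    rw [← h1]
    simp only [henorm]
    exact htot
  have hint : ∀ α : ZM m, Ker k α →
      IntegrableOn (fun z => (((w z).toReal : ℝ) : ℂ) * f α z) (Shell m) (hm m) := by
    intro α hα
    refine ⟨(hmeas α).aestronglyMeasurable, ?_⟩
    exact lt_of_le_of_lt (ENNReal.le_tsum (f := fun β : {β : ZM m // Ker k β} =>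
      ∫⁻ z in Shell m, ‖(((w z).toReal : ℝ) : ℂ) * f β.1 z‖ₑ ∂(hm m)) ⟨α, hα⟩) hsumint.lt_top
  refine ⟨hint, ?_⟩
  have hit := integral_tsum (μ := (hm m).restrict (Shell m))
    (f := fun (β : {β : ZM m // Ker k β}) (z : V m) => (((w z).toReal : ℝ) : ℂ) * f β.1 z)
    (fun β => (hmeas β.1).aestronglyMeasurable) hsumint
  rw [← hit]
  -- integrability of the sum
  have hG : IntegrableOn (fun z => ∑' β : {β : ZM m // Ker k β},
      (((w z).toReal : ℝ) : ℂ) * f β.1 z) (Shell m) (hm m) := by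
    have hae : ∀ᵐ z ∂((hm m).restrict (Shell m)),
        ∑' β : {β : ZM m // Ker k β}, w z * ‖f β.1 z‖ₑ < ⊤ :=
      ae_lt_top hH htot
    have hsm : ∀ᵐ z ∂((hm m).restrict (Shell m)),
        Summable (fun β : {β : ZM m // Ker k β} => (((w z).toReal : ℝ) : ℂ) * f β.1 z) := by
      filter_upwards [hae] with z hz
      apply Summable.of_nnnorm
      rw [← ENNReal.tsum_coe_ne_top_iff_summable]
      refine ne_of_lt (lt_of_le_of_lt (le_of_eq ?_) hz)
      exact tsum_congr fun β => henorm β.1 z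
    refine ⟨?_, ?_⟩
    · refine aestronglyMeasurable_of_tendsto_ae (u := Filter.atTop)
        (f := fun (s : Finset {β : ZM m // Ker k β}) z =>
          ∑ β ∈ s, (((w z).toReal : ℝ) : ℂ) * f β.1 z) ?_ ?_
      · intro s
        exact (Finset.measurable_fun_sum s fun β _ => hmeas β.1).aestronglyMeasurable
      · filter_upwards [hsm] with z hz
        exact hz.hasSum
    · refine lt_of_le_of_lt ?_ htot.lt_top
      refine lintegral_mono_ae ?_
      filter_upwards [hsm] with z hz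
      refine le_trans (enorm_tsum_le_tsum_enorm) (le_of_eq ?_)
      exact tsum_congr fun β => henorm β.1 z
  rw [((hUNZ m hm1 D hD).2 _ hG).2.2]
  refine integral_congr_ae ?_
  have hae2 : ∀ᵐ z ∂((hm m).restrict D), ∑' α : ZM m, ‖f α z‖ₑ < ⊤ :=
    ae_lt_top (Measurable.ennreal_tsum fun α => (hf α).enorm) hfin'
  filter_upwards [hae2, ae_restrict_mem hD.meas] with z hz hzD
  exact (exchC hORB k hkm w hw1 hww f hequ z (hdet z hzD) hz.ne).symm

end Pool.Agent.H76.GU
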